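import Pool.Agent.Helper14.AY.GoalsB

/-!
# DQG: derivatives of solutions, general form
-/

open Complex Metric Set Filter Topology MeasureTheory
open scoped ContDiff ComplexConjugate ComplexOrder Manifold Matrix

namespace Pool.Agent.Helper14.AY

open Pool.Agent.Helper95.Lin Pool.Agent.Helper16.Abund Pool.Agent.Helper92.Orb Pool.Agent.Helper10.SP
  Pool.Agent.Helper95.RK Pool.Agent.Helper57.HS

section cb

variable {n : ℕ} {E : Type*} [NormedAddCommGroup E] {a K K' : ℝ} {S S' : Set (Cn n)}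
  {f g : Cn n → E}

theorem HB_mono (h : HB a S K f) (hS : S' ⊆ S) (hK : K ≤ K') : HB a S' K' f := fun x hx y hy =>
  (h x (hS hx) y (hS hy)).trans
    (mul_le_mul_of_nonneg_right hK (Real.rpow_nonneg (norm_nonneg _) _))

theorem CB_mono (h : CB a S K f) (hS : S' ⊆ S) (hK : K ≤ K') : CB a S' K' f :=
  ⟨fun x hx => (h.1 x (hS hx)).trans hK, HB_mono h.2 hS hK⟩

theorem HB_congr (h : HB a S K f) (hfg : ∀ x ∈ S, f x = g x) : HB a S K g := fun x hx y hy => by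
  rw [← hfg x hx, ← hfg y hy]
  exact h x hx y hy

theorem CB_congr (h : CB a S K f) (hfg : ∀ x ∈ S, f x = g x) : CB a S K g :=
  ⟨fun x hx => by rw [← hfg x hx]; exact h.1 x hx, HB_congr h.2 hfg⟩

end cb

/-- A `C¹` function with bounded derivative on a ball is Hölder. -/
theorem HB_of_fderiv_bdd {n : ℕ} {E : Type*} [NormedAddCommGroup E] [NormedSpace ℝ E] {a K r : ℝ}
    {x₀ : Cn n} {f : Cn n → E} (ha1 : a ≤ 1) (ha : 0 < a) (hK : 0 ≤ K)
    (hf : ∀ x ∈ ball x₀ r, DifferentiableAt ℝ f x) (hb : ∀ x ∈ ball x₀ r, ‖fderiv ℝ f x‖ ≤ K) :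
    HB a (ball x₀ r) (K * (2 * r) ^ (1 - a)) f := by
  intro x hx y hy
  have h1 : ‖f x - f y‖ ≤ K * ‖x - y‖ :=
    (convex_ball x₀ r).norm_image_sub_le_of_norm_fderiv_le hf hb hy hx
  refine h1.trans ?_
  have hxy : ‖x - y‖ ≤ 2 * r := by
    have h2 : dist x y ≤ dist x x₀ + dist y x₀ := dist_triangle_right _ _ _
    rw [← dist_eq_norm]
    have h3 := mem_ball.1 hx
    have h4 := mem_ball.1 hy
    linarith
  have h5 : ‖x - y‖ = ‖x - y‖ ^ (1 - a) * ‖x - y‖ ^ a := by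
    rcases eq_or_ne ‖x - y‖ 0 with h | h
    · rw [h, Real.zero_rpow ha.ne', mul_zero]
    · rw [← Real.rpow_add (lt_of_le_of_ne (norm_nonneg _) h.symm), sub_add_cancel, Real.rpow_one]
  have h6 : ‖x - y‖ ^ (1 - a) ≤ (2 * r) ^ (1 - a) :=
    Real.rpow_le_rpow (norm_nonneg _) hxy (by linarith)
  calc K * ‖x - y‖ = K * (‖x - y‖ ^ (1 - a) * ‖x - y‖ ^ a) := by rw [← h5]
    _ ≤ K * ((2 * r) ^ (1 - a) * ‖x - y‖ ^ a) :=
        mul_le_mul_of_nonneg_left (mul_le_mul_of_nonneg_right h6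
          (Real.rpow_nonneg (norm_nonneg _) _)) hK
    _ = K * (2 * r) ^ (1 - a) * ‖x - y‖ ^ a := by ring

theorem bdd_ball {n : ℕ} {E : Type*} [NormedAddCommGroup E] [NormedSpace ℝ E] {r s : ℝ}
    {x₀ : Cn n} {f : Cn n → E} (hf : ContDiffOn ℝ 1 f (ball x₀ r)) (hs : s < r) :
    ∃ K, 0 ≤ K ∧ ∀ x ∈ closedBall x₀ s, ‖fderiv ℝ f x‖ ≤ K := by
  obtain ⟨K, hK⟩ := (isCompact_closedBall x₀ s).exists_bound_of_continuousOn
    ((hf.continuousOn_fderiv_of_isOpen isOpen_ball (le_refl _)).mono (closedBall_subset_ball hs))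
  exact ⟨max K 0, le_max_right _ _, fun x hx => (hK x hx).trans (le_max_left _ _)⟩

theorem smul_sub_bdd {E : Type*} [NormedAddCommGroup E] [NormedSpace ℝ E] {c K L : ℝ}
    (hc : 0 ≤ c) {A B : E} (hA : ‖A‖ ≤ K) (hB : ‖B‖ ≤ L) : ‖c • (A - B)‖ ≤ c * (K + L) := by
  rw [norm_smul, Real.norm_of_nonneg hc]
  exact mul_le_mul_of_nonneg_left ((norm_sub_le _ _).trans (add_le_add hA hB)) hc

theorem smul_sub_sub_bdd {E : Type*} [NormedAddCommGroup E] [NormedSpace ℝ E] {c K L : ℝ}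
    (hc : 0 ≤ c) {A B A' B' : E} (hA : ‖A - A'‖ ≤ K) (hB : ‖B - B'‖ ≤ L) :
    ‖c • (A - B) - c • (A' - B')‖ ≤ c * (K + L) := by
  rw [← smul_sub, sub_sub_sub_comm]
  exact smul_sub_bdd hc hA hB

/-- Preparation: bounds on a small ball. -/
theorem dqg_prep {n : ℕ} {a r₀ : ℝ} (hHCB : S_HCB) (ha : 0 < a) (ha1 : a < 1) (hr₀ : 0 < r₀)
    {x₀ : Cn n} {v : Cn n → ℝ} (hv : Hk a (ball x₀ r₀) 2 v) :
    ContDiffOn ℝ 2 v (ball x₀ r₀) ∧ ∃ r₁ > 0, 2 * r₁ < r₀ ∧ ∃ K, 0 ≤ K ∧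
      CB a (ball x₀ (2 * r₁)) K (fderiv ℝ v) ∧ CB a (ball x₀ (2 * r₁)) K (D2 v) := by
  obtain ⟨h2, hLH⟩ := ((hHCB a (ball x₀ r₀) ha ha1.le isOpen_ball).1 v).1 hv
  refine ⟨h2, ?_⟩
  obtain ⟨U, hU, K₀, hK₀⟩ := hLH x₀ (mem_ball_self hr₀)
  obtain ⟨s, hs, hsU⟩ := Metric.mem_nhds_iff.1 hU
  have hc1 : ContDiffOn ℝ 1 (fderiv ℝ v) (ball x₀ r₀) :=
    ((contDiffOn_succ_iff_fderiv_of_isOpen (n := 1) isOpen_ball).1 (by exact_mod_cast h2)).2.2
  set r₁ := min (s / 2) (r₀ / 4) with hr₁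
  have hr₁0 : 0 < r₁ := by
    have := half_pos hs
    have : 0 < r₀ / 4 := by linarith
    exact lt_min (by assumption) this
  have h2r : 2 * r₁ < r₀ := by
    have := min_le_right (s / 2) (r₀ / 4)
    linarith
  have h2s : 2 * r₁ ≤ s := by
    have := min_le_left (s / 2) (r₀ / 4)
    linarith
  have hsub : closedBall x₀ (2 * r₁) ⊆ ball x₀ r₀ := closedBall_subset_ball h2r
  obtain ⟨K₁, hK₁⟩ := (isCompact_closedBall x₀ (2 * r₁)).exists_bound_of_continuousOn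
    (hc1.continuousOn.mono hsub)
  obtain ⟨K₂, hK₂0, hK₂'⟩ := bdd_ball hc1 h2r
  have hK₂ : ∀ x ∈ closedBall x₀ (2 * r₁), ‖D2 v x‖ ≤ K₂ := hK₂'
  have hK₁0 : 0 ≤ K₁ := (norm_nonneg _).trans (hK₁ x₀ (mem_closedBall_self (by linarith)))
  set c := (2 * (2 * r₁)) ^ (1 - a) with hc
  have hc0' : 0 ≤ c := Real.rpow_nonneg (by linarith) _
  refine ⟨r₁, hr₁0, h2r, K₁ + K₂ + K₂ * c + |K₀|, by positivity, ⟨?_, ?_⟩, ⟨?_, ?_⟩⟩
  · intro x hx
    have := hK₁ x (ball_subset_closedBall hx)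
    have h3 : 0 ≤ K₂ * c := by positivity
    have h4 := abs_nonneg K₀
    linarith
  · have h3 : HB a (ball x₀ (2 * r₁)) (K₂ * c) (fderiv ℝ v) := by
      refine HB_of_fderiv_bdd ha1.le ha hK₂0 ?_ ?_
      · intro x hx
        exact (hc1.differentiableOn (by norm_num)).differentiableAt
          (isOpen_ball.mem_nhds (hsub (ball_subset_closedBall hx)))
      · intro x hx
        exact hK₂ x (ball_subset_closedBall hx)
    exact HB_mono h3 le_rfl (by have := abs_nonneg K₀; linarith)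
  · intro x hx
    have := hK₂ x (ball_subset_closedBall hx)
    have h3 : 0 ≤ K₂ * c := by positivity
    have h4 := abs_nonneg K₀
    linarith
  · refine HB_mono hK₀ ((ball_subset_ball h2s).trans hsU) ?_
    have h3 : 0 ≤ K₂ * c := by positivity
    have h4 := le_abs_self K₀
    linarith

theorem dqg (hSCH2 : S_SCH2) (hLIMD : S_LIMD) (hDQB : S_DQB) (hDQM : S_DQM) (hCUT : S_CUT)
    (hHCB : S_HCB) (hLMD : S_LMD) : S_DQG := by
  intro n a lam C r₀ x₀ e v ha ha1 hlam hr₀ hv hev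
  obtain ⟨hv2, r₁, hr₁, h2r₁, K, hK, hK1, hK2⟩ := dqg_prep hHCB ha ha1 hr₀ hv
  obtain ⟨δ, hδ, KS, hKS, HS⟩ := hSCH2 n a lam (max C 0) ha ha1 hlam (le_max_right _ _)
  -- the radius
  set r := min r₁ (min δ (r₀ / 4)) with hr
  have hr0 : 0 < r := lt_min hr₁ (lt_min hδ (by linarith))
  have hrr₁ : r ≤ r₁ := min_le_left _ _
  have hrδ : r ≤ δ := (min_le_right _ _).trans (min_le_left _ _)
  have hrr₀ : r ≤ r₀ / 4 := (min_le_right _ _).trans (min_le_right _ _)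
  have hB2 : ball x₀ (2 * r) ⊆ ball x₀ (2 * r₁) := ball_subset_ball (by linarith)
  have hBr : ball x₀ r ⊆ ball x₀ (r₀ / 2) := ball_subset_ball (by linarith)
  have hB0 : ball x₀ (2 * r) ⊆ ball x₀ r₀ := ball_subset_ball (by linarith)
  have hK1' := CB_mono hK1 hB2 le_rfl
  have hK2' := CB_mono hK2 hB2 le_rfl
  have hc1 : ContDiffOn ℝ 1 (fderiv ℝ v) (ball x₀ r₀) :=
    ((contDiffOn_succ_iff_fderiv_of_isOpen (n := 1) isOpen_ball).1 (by exact_mod_cast hv2)).2.2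
  -- the cut-off function
  let η : ContDiffBump x₀ := ⟨r / 2, 3 * r / 4, by linarith, by linarith⟩
  have hηTF : TF (η : Cn n → ℝ) := ⟨η.contDiff, η.hasCompactSupport⟩
  have hηs : tsupport (η : Cn n → ℝ) ⊆ ball x₀ r := by
    rw [η.tsupport_eq]
    exact closedBall_subset_ball (by show 3 * r / 4 < r; linarith)
  have hη1 : ∀ x ∈ ball x₀ (r / 2), η x = 1 := fun x hx =>
    η.one_of_mem_closedBall (ball_subset_closedBall hx)
  set Kc := K * ‖e‖ + |C| with hKc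
  have hKe : 0 ≤ K * ‖e‖ := by positivity
  obtain ⟨K', hK'⟩ := hCUT a r x₀ η ha ha1.le hr0 hηTF hηs Kc
  -- small steps
  have hsmall : ∀ᶠ m : ℕ in atTop, (1 / (m + 1 : ℝ)) * ‖e‖ < r := by
    have h1 : Tendsto (fun m : ℕ => (1 / (m + 1 : ℝ)) * ‖e‖) atTop (𝓝 (0 * ‖e‖)) :=
      tendsto_one_div_add_atTop_nhds_zero_nat.mul_const _
    rw [zero_mul] at h1
    exact h1.eventually_lt_const hr0
  have hbound : ∀ᶠ m : ℕ in atTop,
      ContDiffOn ℝ 2 (dq e (1 / (m + 1 : ℝ)) v) (ball x₀ r) ∧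
      (∀ x ∈ ball x₀ r, fderiv ℝ (dq e (1 / (m + 1 : ℝ)) v) x =
        dq e (1 / (m + 1 : ℝ)) (fderiv ℝ v) x) ∧
      HB a (ball x₀ (r / 2)) (KS * K') (D2 (dq e (1 / (m + 1 : ℝ)) v)) := by
    filter_upwards [hsmall, hev] with m hm ⟨B, F, hEll, hBC, hF, heq⟩
    set h : ℝ := 1 / (m + 1 : ℝ) with hh
    have hh0 : 0 < h := by positivity
    have hmem : ∀ x ∈ ball x₀ r, x + h • e ∈ ball x₀ (2 * r) := by
      intro x hx
      rw [mem_ball, dist_eq_norm] at hx ⊢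
      calc ‖x + h • e - x₀‖ = ‖(x - x₀) + h • e‖ := by congr 1; abel
        _ ≤ ‖x - x₀‖ + ‖h • e‖ := norm_add_le _ _
        _ = ‖x - x₀‖ + h * ‖e‖ := by rw [norm_smul, Real.norm_of_nonneg hh0.le]
        _ < 2 * r := by linarith
    have hsub2 : ball x₀ r ⊆ ball x₀ (2 * r) := ball_subset_ball (by linarith)
    obtain ⟨d1, d2, d3⟩ := hDQB ℝ a K h r x₀ e v ha ha1.le hK hh0 hm
      ((hv2.of_le (by norm_num)).mono hB0) hK1'
    obtain ⟨d4, d5, d6⟩ := hDQB (Cn n →L[ℝ] ℝ) a K h r x₀ e (fderiv ℝ v) ha ha1.le hK hh0 hm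
      (hc1.mono hB0) hK2'
    have hmm : ∀ x ∈ ball x₀ r, ContDiffAt ℝ 2 (dq e h v) x ∧
        D2 (dq e h v) x = h⁻¹ • (D2 v (x + h • e) - D2 v x) := by
      intro x hx
      obtain ⟨m1, m2, -⟩ := hDQM (ball x₀ r₀) v isOpen_ball hv2 e h x (hB0 (hsub2 hx))
        (hB0 (hmem x hx))
      exact ⟨m1, m2⟩
    have hC2 : ContDiffOn ℝ 2 (dq e h v) (ball x₀ r) := fun x hx => (hmm x hx).1.contDiffWithinAt
    refine ⟨hC2, d3, ?_⟩
    have hCabs : C ≤ |C| := le_abs_self C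
    have q1 : CB a (ball x₀ r) Kc (dq e h v) := CB_mono d2 le_rfl (by
      have := abs_nonneg C
      linarith)
    have q2 : CB a (ball x₀ r) Kc (fderiv ℝ (dq e h v)) :=
      CB_congr (CB_mono d5 le_rfl (by
        have := abs_nonneg C
        linarith)) (fun x hx => (d3 x hx).symm)
    have q3 : CB a (ball x₀ r) Kc F := CB_mono hF hBr (by linarith)
    have q4 : ∀ i j, CB a (ball x₀ r) Kc fun x => B x i j := fun i j =>
      CB_mono (hBC i j) hBr (by linarith)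
    obtain ⟨c1, c2, c3⟩ := hK' (dq e h v) F B hC2 q1 q2 q3 q4 (fun x hx => heq x (hBr hx))
    have c4 : ∃ K₃, HB a univ K₃ (D2 fun x => η x * dq e h v x) := by
      refine c3 (2 * h⁻¹ * K) ?_ ⟨2 * h⁻¹ * K, ?_⟩
      · intro x hx y hy
        rw [(hmm x hx).2, (hmm y hy).2]
        have e1 := hK2'.2 (x + h • e) (hmem x hx) (y + h • e) (hmem y hy)
        have e2 := hK2'.2 x (hsub2 hx) y (hsub2 hy)
        have e3 : (x + h • e) - (y + h • e) = x - y := by abel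
        rw [e3] at e1
        calc _ ≤ h⁻¹ * (K * ‖x - y‖ ^ a + K * ‖x - y‖ ^ a) :=
              smul_sub_sub_bdd (inv_nonneg.2 hh0.le) e1 e2
          _ = 2 * h⁻¹ * K * ‖x - y‖ ^ a := by ring
      · intro x hx
        rw [(hmm x hx).2]
        have e1 := hK2'.1 (x + h • e) (hmem x hx)
        have e2 := hK2'.1 x (hsub2 hx)
        calc _ ≤ h⁻¹ * (K + K) := smul_sub_bdd (inv_nonneg.2 hh0.le) e1 e2
          _ = 2 * h⁻¹ * K := by ring
    have c5 : tsupport (fun x => η x * dq e h v x) ⊆ ball x₀ r :=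
      (tsupport_mul_subset_left).trans hηs
    have c6 := HS r x₀ B hr0 hrδ (fun x hx => hEll x (hBr hx))
      (fun i j => HB_mono (hBC i j).2 hBr (le_max_left _ _)) _ c1 c5 c4 K' c2
    refine HB_congr (HB_mono c6 (subset_univ _) le_rfl) ?_
    intro x hx
    have e1 : (fun y => η y * dq e h v y) =ᶠ[𝓝 x] dq e h v := by
      filter_upwards [isOpen_ball.mem_nhds hx] with y hy
      rw [hη1 y hy, one_mul]
    unfold D2
    exact (e1.fderiv (𝕜 := ℝ)).fderiv_eq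
  obtain ⟨m₀, hm₀⟩ := eventually_atTop.1 hbound
  have hBB : ball x₀ (r / 2) ⊆ ball x₀ r := ball_subset_ball (by linarith)
  have hBB0 : ball x₀ (r / 2) ⊆ ball x₀ r₀ := ball_subset_ball (by linarith)
  obtain ⟨L1, L2⟩ := hLIMD (Cn n →L[ℝ] ℝ) a (KS * K') (ball x₀ (r / 2))
    (fun m => fderiv ℝ (dq e (1 / ((m + m₀ : ℕ) + 1 : ℝ)) v))
    (fun x => fderiv ℝ (fun y => fderiv ℝ v y e) x) ha ha1.le isOpen_ball (convex_ball _ _)
    (fun m => by
      have h1 := (hm₀ (m + m₀) (Nat.le_add_left _ _)).1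
      exact (((contDiffOn_succ_iff_fderiv_of_isOpen (n := 1) isOpen_ball).1
        (by exact_mod_cast h1)).2.2).mono hBB)
    (fun m => (hm₀ (m + m₀) (Nat.le_add_left _ _)).2.2)
    (fun x hx => by
      have hd : HasFDerivAt (fderiv ℝ v) (D2 v x) x :=
        ((hc1.differentiableOn (by norm_num)).differentiableAt
          (isOpen_ball.mem_nhds (hBB0 hx))).hasFDerivAt
      have hsym : fderiv ℝ (fun y => fderiv ℝ v y e) x = D2 v x e := by
        ext u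
        obtain ⟨s1, -, -, -⟩ := hLMD v x (hv2.contDiffAt (isOpen_ball.mem_nhds (hBB0 hx)))
        have h1 := (s1 u e).1
        have h2 := (s1 u e).2
        unfold hess at h1
        rw [← h1, h2]
      rw [hsym]
      have hline : HasDerivAt (fun t : ℝ => fderiv ℝ v (x + t • e)) (D2 v x e) 0 := by
        have h1 : HasDerivAt (fun t : ℝ => x + t • e) e 0 := by
          simpa using ((hasDerivAt_id (0 : ℝ)).smul_const e).const_add x
        have h2 : HasFDerivAt (fderiv ℝ v) (D2 v x) (x + (0 : ℝ) • e) := by simpa using hd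
        exact h2.comp_hasDerivAt 0 h1
      have hslope := hline.tendsto_slope_zero
      have hseq : Tendsto (fun m : ℕ => (1 / ((m + m₀ : ℕ) + 1 : ℝ))) atTop (𝓝[≠] 0) := by
        refine tendsto_nhdsWithin_iff.2 ⟨?_, Eventually.of_forall fun m => ?_⟩
        · exact (tendsto_one_div_add_atTop_nhds_zero_nat (𝕜 := ℝ)).comp
            (tendsto_add_atTop_nat m₀)
        · have : (0 : ℝ) < 1 / ((m + m₀ : ℕ) + 1 : ℝ) := by positivity
          exact this.ne'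
      have h3 := hslope.comp hseq
      refine h3.congr (fun m => ?_)
      rw [(hm₀ (m + m₀) (Nat.le_add_left _ _)).2.1 x (hBB hx)]
      simp only [Function.comp_apply, zero_add, zero_smul, add_zero, dq])
  refine ⟨r / 2, by linarith, ?_⟩
  refine ((hHCB a (ball x₀ (r / 2)) ha ha1.le isOpen_ball).1 _).2 ⟨?_, ?_⟩
  · have hd1 : DifferentiableOn ℝ (fun x => fderiv ℝ v x e) (ball x₀ (r / 2)) := by
      intro x hx
      have h1 := ((hc1.differentiableOn (by norm_num)).differentiableAt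
        (isOpen_ball.mem_nhds (hBB0 hx)))
      exact (h1.clm_apply (differentiableAt_const e)).differentiableWithinAt
    have h2 : ContDiffOn ℝ (1 + 1) (fun x => fderiv ℝ v x e) (ball x₀ (r / 2)) :=
      (contDiffOn_succ_iff_fderiv_of_isOpen isOpen_ball).2 ⟨hd1, by simp, L1⟩
    exact_mod_cast h2
  · intro x hx
    exact ⟨ball x₀ (r / 2), isOpen_ball.mem_nhds hx, KS * K', L2⟩

end Pool.Agent.Helper14.AY
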