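import Pool.Agent.Helper57.HS.DefsC

/-!
# AY, goals A: the Schauder estimate for functions with small support (`S_SCHL`)

Every `S_XXX` is a statement to be proved as `theorem xxx : S_XXX` in its own file; `USES` lists the
statements which may be assumed as hypotheses.

Idea (constant coefficients): a pair of test functions `φ`, `ψ` with `∫ φ = 1` and `y φ(y) = - ∇ψ(y)`.
Then `d/dr (w * φ_r) = r (Δw) * ψ_r`, so the second derivatives of `w` are integrals over `r` of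
`r⁻¹ (Δw) * (∂∂ψ)_r`, and the Hölder estimate follows by splitting the integral at `r = |x - x'|`.
-/

open Complex Metric Set Filter Topology MeasureTheory
open scoped ContDiff ComplexConjugate ComplexOrder Manifold Matrix

namespace Pool.Agent.Helper14.AY

open Pool.Agent.Helper95.Lin Pool.Agent.Helper16.Abund Pool.Agent.Helper92.Orb Pool.Agent.Helper10.SP
  Pool.Agent.Helper95.RK Pool.Agent.Helper57.HS

/-! ## Definitions -/

/-- The convolution of `f` with the kernel `k` at the scale `r`. -/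
noncomputable def Cv {n : ℕ} (k f : Cn n → ℝ) (r : ℝ) (x : Cn n) : ℝ := ∫ y, f (x - r • y) * k y

/-- The divergence of the field `y ↦ k y • y`. -/
noncomputable def Eu {n : ℕ} (k : Cn n → ℝ) (y : Cn n) : ℝ := 2 * n * k y + fderiv ℝ k y y

/-- The Laplacian. -/
noncomputable def Lap {n : ℕ} (w : Cn n → ℝ) (x : Cn n) : ℝ :=
  ∑ a : Fin n × Bool, hess w x (rb a) (rb a)

/-- Smooth function with compact support. -/
def TF {n : ℕ} (k : Cn n → ℝ) : Prop := ContDiff ℝ ∞ k ∧ HasCompactSupport k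

/-! ## Kernels -/

/-- CVB. Basic facts on `Cv`.
PROOF. (1) continuous with compact support. (2), (3) linearity and the triangle inequality
(`norm_integral_le_integral_norm`, `integral_mono`). (4) dominated convergence: for `0 ≤ r ≤ 1` and `y` in the
compact support of `k` the points `x - r • y` stay in a compact set, where `f` is bounded; or uniform
continuity on a compact set. (5) a function `f` with compact support is bounded. -/
def S_CVB : Prop := ∀ {n : ℕ} (k f : Cn n → ℝ), TF k → Continuous f →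
  (∀ (r : ℝ) (x : Cn n), Integrable fun y => f (x - r • y) * k y) ∧
  (∀ (k' : Cn n → ℝ), TF k' → ∀ (c c' r : ℝ) (x : Cn n),
    Cv (fun y => c * k y + c' * k' y) f r x = c * Cv k f r x + c' * Cv k' f r x) ∧
  (∀ B : ℝ, (∀ x, |f x| ≤ B) → ∀ (r : ℝ) (x : Cn n), |Cv k f r x| ≤ B * ∫ y, |k y|) ∧
  (∀ x : Cn n, Tendsto (fun r => Cv k f r x) (𝓝[>] 0) (𝓝 (f x * ∫ y, k y))) ∧
  (∀ x : Cn n, HasCompactSupport f → Tendsto (fun r : ℝ => (r ^ 2)⁻¹ * Cv k f r x) atTop (𝓝 0))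

/-- CVD. Integration by parts. USES: CVB.
PROOF. The function `y ↦ f (x - r • y) * k y` is `C¹` with compact support, so the integral of its
derivative in the direction `v` is `0` (e.g. `integral_mul_fderiv_eq_neg_fderiv_mul_of_integrable`, or
`integral_bilinear_hasLineDerivAt_right_eq_neg_left_of_integrable`); and
`∂_v (f (x - r • y)) = - r * (∂_v f) (x - r • y)`. -/
def S_CVD : Prop := ∀ {n : ℕ} (k f : Cn n → ℝ), TF k → ContDiff ℝ 1 f →
  ∀ (v : Cn n) (r : ℝ) (x : Cn n), 0 < r →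
    r * Cv k (fun y => fderiv ℝ f y v) r x = Cv (fun y => fderiv ℝ k y v) f r x

/-- CVR. The derivative with respect to the scale. USES: CVB.
PROOF. Substitution `z = r • y` (real dimension `2 n`): `Cv k f r x = ∫ f (x - z) * (r ^ (2 n))⁻¹ * k (r⁻¹ • z)`
(`MeasureTheory.Measure.integral_comp_smul`, `finrank_real_of_complex...`, `finrank ℝ (Cn n) = 2 * n`).
The derivative with respect to `r` of the kernel `(r ^ (2 n))⁻¹ * k (r⁻¹ • z)` is
`- r⁻¹ * (r ^ (2 n))⁻¹ * (Eu k) (r⁻¹ • z)`. For `r` near `r₀ > 0` all kernels and their derivatives vanish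
outside a fixed compact set, where everything is continuous in `(r, z)`, so bounded; use
`hasDerivAt_integral_of_dominated_loc_of_deriv_le`. Substitute back. -/
def S_CVR : Prop := ∀ {n : ℕ} (k f : Cn n → ℝ), TF k → Continuous f → ∀ (x : Cn n) (r : ℝ),
  0 < r → HasDerivAt (fun s => Cv k f s x) (- r⁻¹ * Cv (Eu k) f r x) r

/-- KER. The kernels.
PROOF. `q(y) := ∑ j, ‖y j‖ ^ 2`, `ψ₀ y := expNegInvGlue (1 - q y)`, `φ₀ y := 2 * g' (1 - q y)` with `g' =` derivative of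
`expNegInvGlue` (so `g' ≥ 0`, and `g' ≠ 0` somewhere on `(0, 1)`, because `expNegInvGlue` is monotone and not
constant there). `q` is a smooth function (`‖z‖ ^ 2 = re ^ 2 + im ^ 2`), `fderiv ℝ q y v = 2 ∑ j, Re (conj (y j) v j)`, so
`fderiv ℝ ψ₀ y v = - φ₀ y * B y v` with the real inner product `B y v = ∑ j, Re (conj (y j) * v j)`. Normalize by
`∫ φ₀ > 0`. (So `φ` and `ψ` are supported in the closed unit ball.) -/
def S_KER : Prop := ∀ {n : ℕ}, 0 < n → ∃ φ ψ : Cn n → ℝ, TF φ ∧ TF ψ ∧ ∫ y, φ y = 1 ∧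
  ∀ y v : Cn n, fderiv ℝ ψ y v = - φ y * ∑ j, (conj (y j) * v j).re

/-- KEU. The identity for the second derivatives of the kernels.
PROOF. Let `E v y := ∑ j, (conj (y j) * v j).re` (linear in `y` and in `v`, `E (rb a) y` is the coordinate `a` of `y`,
`y = ∑ a, E (rb a) y • rb a`, `∑ a, E (rb a) (rb a) = 2 n`, symmetric: `E v u = E u v`). Hypothesis:
`∂_v ψ = - φ E v`. So `Lap ψ = ∑ a, ∂_a (- φ E (rb a)) = - (∑ a, (∂_a φ) E (rb a) + 2 n φ) = - Eu φ`. Now apply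
`∂_u ∂_v` (as `fderiv ... v`, then `u`): `Lap` commutes with it (symmetry of the derivatives of smooth functions),
and `∂_u ∂_v (fderiv φ y y) = (D k)(y) y + 2 k` with `k = ∂_u ∂_v φ`: first `∂_v (fderiv φ y y) = D(∂_v φ)(y) y + ∂_v φ`,
then once more. -/
def S_KEU : Prop := ∀ {n : ℕ} (φ ψ : Cn n → ℝ), TF φ → TF ψ →
  (∀ y v : Cn n, fderiv ℝ ψ y v = - φ y * ∑ j, (conj (y j) * v j).re) → ∀ u v y : Cn n,
  2 * hess φ y u v + Eu (fun z => hess φ z u v) y = - Lap (fun z => hess ψ z u v) y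

/-- CVH. The bounds for kernels with integral zero.
PROOF. Let `k` vanish outside `closedBall 0 ρ`. (1) `Cv k F r x = ∫ (F (x - r • y) - F x) * k y`, and
`|F (x - r • y) - F x| ≤ M (r ρ) ^ a` on the support. (2) Put `η := r⁻¹ • (x - x')`, `‖η‖ ≤ 1`. Since
`x - r • y = x' - r • (y - η)`, translation gives `Cv k F r x = ∫ F (x' - r • y) * k (y + η)`, so the difference is
`∫ (F (x' - r • y) - F x') * (k (y + η) - k y)` (both kernels have integral `0`); `|k (y + η) - k y| ≤ L ‖η‖` (`k` is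
Lipschitz) and it vanishes outside `closedBall 0 (ρ + 1)`. So the difference is at most
`M (r (ρ + 1)) ^ a * L ‖η‖ * volume (closedBall 0 (ρ + 1))`, `‖η‖ = ‖x - x'‖ / r`. -/
def S_CVH : Prop := ∀ {n : ℕ} (k : Cn n → ℝ) (a : ℝ), TF k → ∫ y, k y = 0 → 0 < a → a < 1 →
  ∃ C : ℝ, 0 < C ∧ ∀ (F : Cn n → ℝ) (M : ℝ), Continuous F → 0 ≤ M → HB a univ M F →
    (∀ (r : ℝ) (x : Cn n), 0 < r → |Cv k F r x| ≤ C * M * r ^ a) ∧
    ∀ (r : ℝ) (x x' : Cn n), 0 < r → ‖x - x'‖ ≤ r →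
      |Cv k F r x - Cv k F r x'| ≤ C * M * ‖x - x'‖ * r ^ (a - 1)

/-- GSL. The derivative of the regularized second derivatives. USES: CVB, CVD, CVR, KEU.
PROOF. Put `A r x := Cv φ (fun y => hess w y u v) r x`. By `CVD` twice (the functions `w`, `fderiv w · v` are `C¹`)
`A r x = (r ^ 2)⁻¹ * Cv (fun y => hess φ y u v) w r x` (`hess φ y u v = fderiv (fun z => fderiv φ z v) y u`;
order of the two integrations by parts: `hess w y u v = fderiv (fun z => fderiv w z v) y u`: first move `u`, then `v`;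
`∂_v ∂_u φ = ∂_u ∂_v φ`). Derivative of `A` by `CVR`:
`- 2 (r ^ 3)⁻¹ Cv k w - (r ^ 3)⁻¹ Cv (Eu k) w = - (r ^ 3)⁻¹ Cv (2 k + Eu k) w = (r ^ 3)⁻¹ Cv (Lap (∂_u ∂_v ψ)) w`
with `k = hess φ · u v` (`KEU`), and `Cv (Lap l) w r x = r ^ 2 * Cv l (Lap w) r x` by `CVD` twice for every `rb a`.
The limits: `CVB` (4) and (5). -/
def S_GSL : Prop := ∀ {n : ℕ} (φ ψ : Cn n → ℝ), TF φ → TF ψ → ∫ y, φ y = 1 →
  (∀ y v : Cn n, fderiv ℝ ψ y v = - φ y * ∑ j, (conj (y j) * v j).re) →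
  ∀ w : Cn n → ℝ, ContDiff ℝ 2 w → HasCompactSupport w → ∀ u v x : Cn n,
    (∀ r : ℝ, 0 < r → HasDerivAt (fun s => Cv φ (fun y => hess w y u v) s x)
      (r⁻¹ * Cv (fun y => hess ψ y u v) (Lap w) r x) r) ∧
    Tendsto (fun r => Cv φ (fun y => hess w y u v) r x) (𝓝[>] 0) (𝓝 (hess w x u v)) ∧
    Tendsto (fun r => Cv φ (fun y => hess w y u v) r x) atTop (𝓝 0)

/-- GSI. Integration of the bounds.
PROOF. `h > 0`. On `(0, h]`: `|g' r| ≤ 2 c r ^ (a - 1)` is the derivative of `2 c r ^ a / a`; so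
`|g h - g ρ| ≤ (2 c / a) h ^ a` for `0 < ρ < h` (`norm_image_sub_le_of_norm_deriv_le...`; e.g.
`image_norm_le_of_norm_deriv_right_le_deriv_boundary` applied to `g - g ρ`). On `[h, ∞)`:
`|g' r| ≤ c h r ^ (a - 2)`, the derivative of `- c h r ^ (a - 1) / (1 - a)`: `|g R - g h| ≤ c h ^ a / (1 - a)`.
Let `ρ → 0`, `R → ∞`. -/
def S_GSI : Prop := ∀ (a c h l : ℝ) (g g' : ℝ → ℝ), 0 < a → a < 1 → 0 ≤ c → 0 < h →
  (∀ r, 0 < r → HasDerivAt g (g' r) r) → (∀ r, 0 < r → |g' r| ≤ 2 * c * r ^ (a - 1)) →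
  (∀ r, h ≤ r → |g' r| ≤ c * h * r ^ (a - 2)) → Tendsto g (𝓝[>] 0) (𝓝 l) →
  Tendsto g atTop (𝓝 0) → |l| ≤ (2 / a + 1 / (1 - a)) * c * h ^ a

/-- GS1. The Schauder estimate for the Laplacian. USES: KER, CVH, GSL, GSI.
PROOF. `n = 0`: `Cn 0` is a point, everything is trivial. Let `φ`, `ψ` be as in `KER`. For real basis vectors
`u = rb b`, `v = rb c` the kernel `k = hess ψ · u v` is a test function with integral `0` (integral of a
derivative of a test function), so `CVH` gives `C_{bc}`; `C := ∑ C_{bc}`. For `x ≠ x'`, `h := ‖x - x'‖`, apply `GSI` to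
`g r := A r x - A r x'` (`GSL`), `c := C M` (if `M < 0` then there are no two different points, or `HB` fails; so
`0 ≤ M`): `|hess w x u v - hess w x' u v| ≤ K₁ M h ^ a`. Finally `D2 w x u v = hess w x u v` (`w` is `C²`) and the norm
of a bilinear form is at most `4` (or any constant depending on `n`) times the sum of the absolute values of its
entries in the basis `rb` (`z = ∑ a, (coordinate a of z) • rb a`, coordinates `≤ ‖z‖`). -/
def S_GS1 : Prop := ∀ (n : ℕ) (a : ℝ), 0 < a → a < 1 → ∃ K : ℝ, 0 < K ∧ ∀ w : Cn n → ℝ,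
  ContDiff ℝ 2 w → HasCompactSupport w → ∀ M : ℝ, HB a univ M (Lap w) → HB a univ (K * M) (D2 w)

/-! ## General constant coefficients -/

/-- LMD. The Levi matrix in terms of the second derivative.
PROOF. `cdb k w = ∂_k w + I ∂_{ik} w`, `cd j f = ∂_j f - I ∂_{ij} f` for the complex valued `C¹` functions;
`fderiv ℝ (fun y => (w y : ℂ)) y v = (fderiv ℝ w y v : ℂ)` near `x` (where `w` is differentiable:
`ContDiffAt ℝ 2` gives a neighborhood), and `hess w x u v = D2 w x u v`. -/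
def S_LMD : Prop := ∀ {n : ℕ} (w : Cn n → ℝ) (x : Cn n), ContDiffAt ℝ 2 w x →
  (∀ u v, D2 w x u v = hess w x u v ∧ D2 w x u v = D2 w x v u) ∧
  (∀ j k, LM w x j k =
    ((D2 w x (Pi.single j 1) (Pi.single k 1) + D2 w x (Pi.single j I) (Pi.single k I) : ℝ) : ℂ) +
    I * ((D2 w x (Pi.single j 1) (Pi.single k I) - D2 w x (Pi.single j I) (Pi.single k 1) : ℝ) : ℂ)) ∧
  (LM w x).IsHermitian ∧ Matrix.trace (LM w x) = ((Lap w x : ℝ) : ℂ)

/-- SQA. Square roots. USES: LMD.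
PROOF. `A` is positive definite with eigenvalues in `[lam, 1/lam]`, and so is its transpose `Aᵀ`; there is a matrix `L`
with `L * Lᴴ = Aᵀ` (`Matrix.posSemidef_iff_eq_conjTranspose_mul_self` or `CFC.sqrt`), `det L ≠ 0`. Diagonal entries:
`∑ j, ‖L i j‖ ^ 2 = (Aᵀ) i i ≤ 1/lam` and for `N := L⁻¹`: `Nᴴ * N = (Aᵀ)⁻¹ ≤ 1/lam`, so `∑ i, ‖N i j‖ ^ 2 ≤ 1/lam`. So
both matrices have entries bounded by `lam ^ (-1/2)`, and the operator norms (sup norm) are at most
`n * lam ^ (-1/2)`. `L y := L.mulVec y` is complex linear. Chain rule (twice) for `w ∘ L`, `L` linear: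
`D2 (w ∘ L) y u v = D2 w (L y) (L u) (L v)`, and with `LMD`: `LM (w ∘ L) y j k = ∑ p q, L p j * conj (L q k) * LM w (L y) p q`
(expand in the real basis; or use that `(u, v) ↦ D2 w x u v + D2 w x (I u) (I v) + I (D2 w x u (I v) - D2 w x (I u) v)` is
complex linear in `u` and antilinear in `v`). Trace: `∑ p q, (L Lᴴ) p q * LM w (L y) p q = trace (A * LM w (L y))`. -/
def S_SQA : Prop := ∀ (n : ℕ) (lam : ℝ), 0 < lam → ∃ C : ℝ, 0 < C ∧
  ∀ A : Matrix (Fin n) (Fin n) ℂ, MLe ((lam : ℂ) • 1) A → MLe A (((lam⁻¹ : ℝ) : ℂ) • 1) →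
  ∃ L : Cn n ≃L[ℝ] Cn n, ‖(L : Cn n →L[ℝ] Cn n)‖ ≤ C ∧ ‖(L.symm : Cn n →L[ℝ] Cn n)‖ ≤ C ∧
    ∀ w : Cn n → ℝ, ContDiff ℝ 2 w → ∀ y,
      (∀ u v, D2 (fun z => w (L z)) y u v = D2 w (L y) (L u) (L v)) ∧
      Matrix.trace (A * LM w (L y)) = ((Lap (fun z => w (L z)) y : ℝ) : ℂ)

/-- GSA. The Schauder estimate for constant coefficients. USES: GS1, SQA.
PROOF. Let `w' := w ∘ L`: `C²`, compact support (`L` is a homeomorphism), `Lap w' y = Re trace (A * LM w (L y))`, so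
`HB a univ (M C ^ a) (Lap w')` and by `GS1` `HB a univ (K M C ^ a) (D2 w')`. Then
`D2 w x u v = D2 w' (L⁻¹ x) (L⁻¹ u) (L⁻¹ v)`, so `‖D2 w x - D2 w x'‖ ≤ C ^ 2 K M C ^ a (C ‖x - x'‖) ^ a`. -/
def S_GSA : Prop := ∀ (n : ℕ) (a lam : ℝ), 0 < a → a < 1 → 0 < lam → ∃ K : ℝ, 0 < K ∧
  ∀ A : Matrix (Fin n) (Fin n) ℂ, MLe ((lam : ℂ) • 1) A → MLe A (((lam⁻¹ : ℝ) : ℂ) • 1) →
  ∀ w : Cn n → ℝ, ContDiff ℝ 2 w → HasCompactSupport w → ∀ M : ℝ,
    HB a univ M (fun x => Matrix.trace (A * LM w x)) → HB a univ (K * M) (D2 w)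

/-- SCH2. Freezing the coefficients. USES: GSA, LMD. (helper14)
PROOF. `n = 0` is trivial. Let `K₁` be the constant of `GSA`. Suppose `HB a univ N (D2 w)`. Then
`‖D2 w x‖ ≤ N (2 ρ) ^ a` for all `x` (there is a point outside the ball at distance `≤ 2 ρ`, where `D2 w = 0`). Let
`g x := trace ((A x₀ - A x) * LM w x)`, `0` outside the ball. CLAIM: `HB a univ (c A₀ ρ ^ a N) g`, `c = c(n)`: for `x`, `y` in
the ball: `g x - g y = trace ((A x₀ - A x) * (LM w x - LM w y)) + trace ((A y - A x) * LM w y)`; for `x` in and `y`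
outside the ball take a point `z` on the segment with `‖z - x₀‖ = ρ`, where `LM w z = 0`:
`g x = trace ((A x₀ - A x) * (LM w x - LM w z))`, `‖x - z‖ ≤ ‖x - y‖`. So `GSA` gives
`HB a univ (K₁ M + K₁ c A₀ ρ ^ a N) (D2 w)`, and for `ρ ≤ δ`, `δ` small: `HB N ⇒ HB (K₁ M + N / 2)`. Iterate and pass to
the limit: `HB (2 K₁ M)`. -/
def S_SCH2 : Prop := ∀ (n : ℕ) (a lam A₀ : ℝ), 0 < a → a < 1 → 0 < lam → 0 ≤ A₀ →
  ∃ δ > 0, ∃ K > 0, ∀ (ρ : ℝ) (x₀ : Cn n) (A : Cn n → Matrix (Fin n) (Fin n) ℂ), 0 < ρ → ρ ≤ δ →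
    Ell lam (ball x₀ ρ) A →
    (∀ i j, HB a (ball x₀ ρ) A₀ fun x => A x i j) → ∀ w : Cn n → ℝ, ContDiff ℝ 2 w →
    tsupport w ⊆ ball x₀ ρ → (∃ K', HB a univ K' (D2 w)) → ∀ M : ℝ,
    HB a univ M (fun x => Matrix.trace (A x * LM w x)) → HB a univ (K * M) (D2 w)

theorem schl_of_sch2 (h : S_SCH2) : S_SCHL := by
  intro n a lam A₀ ha ha1 hl hA₀
  obtain ⟨δ, hδ, K, hK, H⟩ := h n a lam A₀ ha ha1 hl hA₀
  exact ⟨δ, hδ, K, hK, fun x₀ A hA hAH w hw hs hw' M hM =>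
    H δ x₀ A hδ le_rfl hA hAH w hw hs hw' M hM⟩

end Pool.Agent.Helper14.AY
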