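import Pool.Agent.Helper14.AY.GoalsA

/-!
# AY, goals B: regularity of solutions of class `C^(2,a)` (`S_REGN`)

`Hk a W k f`: `f` is `k` times differentiable on the open set `W` and its derivatives of order at most `k`
satisfy a Hölder condition locally. Difference quotients of solutions have uniformly bounded second
derivatives by the Schauder estimate `S_SCHL` (applied to `η v^h`, small support); so the derivatives of
solutions are again of class `C^(2,a)`, and they satisfy the differentiated equation.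
-/

open Complex Metric Set Filter Topology MeasureTheory
open scoped ContDiff ComplexConjugate ComplexOrder Manifold Matrix

namespace Pool.Agent.Helper14.AY

open Pool.Agent.Helper95.Lin Pool.Agent.Helper16.Abund Pool.Agent.Helper92.Orb Pool.Agent.Helper10.SP
  Pool.Agent.Helper95.RK Pool.Agent.Helper57.HS

/-! ## Definitions -/

/-- Local Hölder condition. -/
def LH {n : ℕ} {E : Type} [NormedAddCommGroup E] (a : ℝ) (W : Set (Cn n)) (f : Cn n → E) : Prop :=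
  ∀ x ∈ W, ∃ U ∈ 𝓝 x, ∃ K, HB a U K f

/-- Functions of class `C^(k,a)`, locally on the open set `W`. -/
def Hk {n : ℕ} {E : Type} [NormedAddCommGroup E] [NormedSpace ℝ E] (a : ℝ) (W : Set (Cn n)) :
    ℕ → (Cn n → E) → Prop
  | 0, f => LH a W f
  | k + 1, f => ContDiffOn ℝ 1 f W ∧ ∀ v : Cn n, Hk a W k fun x => fderiv ℝ f x v

/-- The difference quotient in the direction `e`. -/
noncomputable def dq {n : ℕ} {E : Type} [NormedAddCommGroup E] [NormedSpace ℝ E] (e : Cn n) (h : ℝ)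
    (f : Cn n → E) (x : Cn n) : E := h⁻¹ • (f (x + h • e) - f x)

/-! ## Hölder calculus -/

/-- HCA. Local Hölder classes.
PROOF. By induction on `k` (for (2) and (3): a `C¹` function is locally Lipschitz, so locally Hölder with
exponent `a ≤ 1` on bounded sets). (1) smooth functions; (2) monotone in `k`; restriction to open subsets;
(3) `Hk 0` from `ContDiffOn 1`; (4) sums; (5) products with values in `ℝ` or `ℂ` (`𝕜` below): product rule and
(2), (4); (6) quotients: `D(1/f) = - Df / f ^ 2`; (7) composition with a real linear map; (8) congruence on the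
open set `W`; (9) all `k`: smooth. -/
def S_HCA : Prop := ∀ {n : ℕ} (a : ℝ) (W : Set (Cn n)), 0 < a → a ≤ 1 → IsOpen W →
  (∀ (E : Type) [NormedAddCommGroup E] [NormedSpace ℝ E] (f : Cn n → E), ContDiffOn ℝ ∞ f W →
    ∀ k, Hk a W k f) ∧
  (∀ (E : Type) [NormedAddCommGroup E] [NormedSpace ℝ E] (f : Cn n → E) (k : ℕ),
    Hk a W (k + 1) f → Hk a W k f) ∧
  (∀ (E : Type) [NormedAddCommGroup E] [NormedSpace ℝ E] (f : Cn n → E) (k : ℕ) (V : Set (Cn n)),
    IsOpen V → V ⊆ W → Hk a W k f → Hk a V k f) ∧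
  (∀ (E : Type) [NormedAddCommGroup E] [NormedSpace ℝ E] (f g : Cn n → E) (k : ℕ),
    Hk a W k f → Hk a W k g → Hk a W k fun x => f x + g x) ∧
  (∀ (f g : Cn n → ℂ) (k : ℕ), Hk a W k f → Hk a W k g → Hk a W k fun x => f x * g x) ∧
  (∀ (f : Cn n → ℂ) (k : ℕ), (∀ x ∈ W, f x ≠ 0) → ContinuousOn f W → Hk a W k f →
    Hk a W k fun x => (f x)⁻¹) ∧
  (∀ (E F : Type) [NormedAddCommGroup E] [NormedSpace ℝ E] [NormedAddCommGroup F] [NormedSpace ℝ F]
    (L : E →L[ℝ] F) (f : Cn n → E) (k : ℕ), Hk a W k f → Hk a W k fun x => L (f x)) ∧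
  (∀ (E : Type) [NormedAddCommGroup E] [NormedSpace ℝ E] (f g : Cn n → E) (k : ℕ),
    (∀ x ∈ W, f x = g x) → Hk a W k f → Hk a W k g) ∧
  (∀ (E : Type) [NormedAddCommGroup E] [NormedSpace ℝ E] [FiniteDimensional ℝ E] (f : Cn n → E),
    (∀ k, Hk a W k f) → ContDiffOn ℝ ∞ f W)

/-- HCB. The case of two derivatives. USES: HCA, LMD.
PROOF. (1) `Hk 2 f` says: `f ∈ C¹`, all directional derivatives `∂_v f ∈ C¹` and `∂_u ∂_v f` locally Hölder; use the
real basis `rb` and finite dimension: `fderiv ℝ f` is `C¹` (it is determined by its values on the basis) and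
`D2 f` is locally Hölder (`D2 f x u v = ∂_u ∂_v f`). (2) by `LMD` the entries of `LM u` are real linear
combinations of `D2 u x (basis) (basis)`, i.e. of second directional derivatives. (3) adjugate and
determinant are polynomials in the entries; `Q⁻¹ = (det Q)⁻¹ adj Q`. -/
def S_HCB : Prop := ∀ {n : ℕ} (a : ℝ) (W : Set (Cn n)), 0 < a → a ≤ 1 → IsOpen W →
  (∀ f : Cn n → ℝ, Hk a W 2 f ↔ ContDiffOn ℝ 2 f W ∧ LH a W (D2 f)) ∧
  (∀ (f : Cn n → ℝ) (k : ℕ), Hk a W (k + 2) f → ContDiffOn ℝ 2 f W ∧ ∀ i j, Hk a W k fun x => LM f x i j) ∧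
  (∀ (Q : Cn n → Matrix (Fin n) (Fin n) ℂ) (k : ℕ), (∀ x ∈ W, (Q x).det ≠ 0) →
    (∀ i j, ContinuousOn (fun x => Q x i j) W) → (∀ i j, Hk a W k fun x => Q x i j) →
    ∀ i j, Hk a W k fun x => (Q x)⁻¹ i j)

/-- LIMD. Limits of functions with equi-Hölder derivatives.
PROOF. Taylor: `‖p h y - p h x - D(p h)(x) (y - x)‖ ≤ K ‖y - x‖ ^ (1 + a)` on the convex set `B`
(`Convex.norm_image_sub_le_of_norm_hasFDerivWithin_le` applied to `p h - D(p h)(x)`). For a fixed `x` and direction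
`v` and small `t > 0`: `‖D(p h)(x) v - D(p h')(x) v‖ ≤ t⁻¹ (‖p h (x + t v) - p h' (x + t v)‖ + ‖p h x - p h' x‖) +
2 K t ^ a ‖v‖ ^ (1 + a)`: so `D(p h)(x) v` is Cauchy as `h → 0`; the limit `P x v` is linear in `v`, continuous (finite
dimension), and passing to the limit `‖p y - p x - P x (y - x)‖ ≤ K ‖y - x‖ ^ (1 + a)`, so `HasFDerivAt p (P x) x`. The
Hölder condition passes to the limit (`‖D(p h)(x) v - D(p h)(y) v‖ ≤ K ‖x - y‖ ^ a ‖v‖`). -/
def S_LIMD : Prop := ∀ {n : ℕ} (E : Type) [NormedAddCommGroup E] [NormedSpace ℝ E]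
  [FiniteDimensional ℝ E] (a K : ℝ) (B : Set (Cn n)) (p : ℕ → Cn n → E) (q : Cn n → E), 0 < a →
  a ≤ 1 → IsOpen B → Convex ℝ B → (∀ h, ContDiffOn ℝ 1 (p h) B) →
  (∀ h, HB a B K fun x => fderiv ℝ (p h) x) → (∀ x ∈ B, Tendsto (fun h => p h x) atTop (𝓝 (q x))) →
  ContDiffOn ℝ 1 q B ∧ HB a B K fun x => fderiv ℝ q x

/-- DQB. Difference quotients.
PROOF. `dq e h f x = ∫_0^1 (fderiv ℝ f (x + s h e)) e ds` (or the mean value inequality applied to
`s ↦ f (x + s h e)` and to `s ↦ f (x + s h e) - f (y + s h e)`): so the bound and the Hölder condition for `fderiv f`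
give those for `dq e h f` (constants times `‖e‖`). The last item: definition of the derivative. Derivatives:
`fderiv (dq e h f) x = dq e h (fderiv f) x`. -/
def S_DQB : Prop := ∀ {n : ℕ} (E : Type) [NormedAddCommGroup E] [NormedSpace ℝ E] (a K h r : ℝ)
  (x₀ e : Cn n) (f : Cn n → E), 0 < a → a ≤ 1 → 0 ≤ K → 0 < h → h * ‖e‖ < r →
  ContDiffOn ℝ 1 f (ball x₀ (2 * r)) → CB a (ball x₀ (2 * r)) K (fderiv ℝ f) →
  ContDiffOn ℝ 1 (dq e h f) (ball x₀ r) ∧ CB a (ball x₀ r) (K * ‖e‖) (dq e h f) ∧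
  ∀ x ∈ ball x₀ r, fderiv ℝ (dq e h f) x = dq e h (fderiv ℝ f) x

/-- DQM. Second derivatives of difference quotients. USES: LMD.
PROOF. Near `x` both `v` and `v (· + h • e)` are `C²`; linearity of the derivatives and translation. For `LM` use
`LMD` (the entries of `LM` are linear in `D2`). -/
def S_DQM : Prop := ∀ {n : ℕ} (W : Set (Cn n)) (v : Cn n → ℝ), IsOpen W → ContDiffOn ℝ 2 v W →
  ∀ (e : Cn n) (h : ℝ), ∀ x ∈ W, x + h • e ∈ W → ContDiffAt ℝ 2 (dq e h v) x ∧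
    D2 (dq e h v) x = h⁻¹ • (D2 v (x + h • e) - D2 v x) ∧
    ∀ i j, LM (dq e h v) x i j = dq e h (fun y => LM v y i j) x

/-- ELC. Local ellipticity.
PROOF. The set of `(x, z)` with `x` in a closed ball in `W` and `‖z‖ = 1` is compact and
`(x, z) ↦ (star z ⬝ᵥ (A x).mulVec z).re` is continuous and positive: it is `≥ c ‖z‖ ^ 2` there; upper bound: the entries
are bounded. Take `lam` small. For `n = 0` everything is trivial. -/
def S_ELC : Prop := ∀ {n : ℕ} (W : Set (Cn n)) (A : Cn n → Matrix (Fin n) (Fin n) ℂ), IsOpen W →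
  (∀ x ∈ W, (A x).PosDef) → (∀ i j, ContinuousOn (fun x => A x i j) W) → ∀ x₀ ∈ W,
  ∃ r > 0, ∃ lam > 0, closedBall x₀ r ⊆ W ∧ Ell lam (closedBall x₀ r) A

/-- CUT. Products with a cut-off function. USES: LMD.
PROOF. Product rule: `LM (η v) = η LM v + v LM η + (∂η, ∂v-terms)`; by `LMD` every entry of
`LM (η v) - η LM v` is a linear combination of terms `v D2 η`, `(∂_b η) (∂_c v)` (`b`, `c` in the real basis). Products of
bounded Hölder functions are Hölder; `η` vanishes outside a compact subset of `ball x₀ r`, which gives the global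
Hölder conditions (segment argument: if `x ∈ ball`, `y ∉ ball` there is a point `z` on the segment with
`‖z - x₀‖ = r`, where the function vanishes). -/
def S_CUT : Prop := ∀ {n : ℕ} (a r : ℝ) (x₀ : Cn n) (η : Cn n → ℝ), 0 < a → a ≤ 1 →
  0 < r → TF η → tsupport η ⊆ ball x₀ r → ∀ K : ℝ, ∃ K' : ℝ, ∀ (v : Cn n → ℝ) (F : Cn n → ℂ)
    (A : Cn n → Matrix (Fin n) (Fin n) ℂ), ContDiffOn ℝ 2 v (ball x₀ r) →
    CB a (ball x₀ r) K v → CB a (ball x₀ r) K (fderiv ℝ v) → CB a (ball x₀ r) K F →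
    (∀ i j, CB a (ball x₀ r) K fun x => A x i j) →
    (∀ x ∈ ball x₀ r, Matrix.trace (A x * LM v x) = F x) →
    ContDiff ℝ 2 (fun x => η x * v x) ∧
    HB a univ K' (fun x => Matrix.trace (A x * LM (fun y => η y * v y) x)) ∧
    ∀ K₁, HB a (ball x₀ r) K₁ (D2 v) → (∃ K₂, ∀ x ∈ ball x₀ r, ‖D2 v x‖ ≤ K₂) →
      ∃ K₃, HB a univ K₃ (D2 fun x => η x * v x)

/-- DQG. Derivatives of solutions, general form. USES: SCH2, LIMD, DQB, DQM, CUT, HCB. (helper14)
PROOF. Let `δ` be the constant of `S_SCH2` (with `A₀ = C`); shrink `r₀` to `r < δ`, `r < r₀ / 4`, with `v`, `fderiv v`, `D2 v` bounded and `D2 v` Hölder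
on `ball x₀ (2 r)`. `η` a cut-off function with support in `ball x₀ r`, `η = 1` on `ball x₀ (r / 2)`. For `h = 1 / m`, `m`
large: `v^h = dq e h v` satisfies the hypotheses of `CUT` with constants independent of `h` (`DQB` for `v` and for
`fderiv v`), so `η v^h` is `C²` with small support and `HB a univ K' (trace (B^h LM (η v^h)))`; by `S_SCH2` (`A = B^h`)
`HB a univ (K K') (D2 (η v^h))`. Apply `LIMD` on `ball x₀ (r/2)` to `p h := fderiv ℝ v^h`, `q := fderiv ℝ (∂_e v)`: pointwise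
convergence `fderiv v^h x = dq e h (fderiv v) x → D2 v x e = fderiv (∂_e v) x`. So `fderiv (∂_e v)` is `C¹` with Hölder
derivative. -/
def S_DQG : Prop := ∀ {n : ℕ} (a lam C r₀ : ℝ) (x₀ e : Cn n) (v : Cn n → ℝ), 0 < a → a < 1 →
  0 < lam → 0 < r₀ → Hk a (ball x₀ r₀) 2 v →
  (∀ᶠ m : ℕ in atTop, ∃ (B : Cn n → Matrix (Fin n) (Fin n) ℂ) (F : Cn n → ℂ),
    Ell lam (ball x₀ (r₀ / 2)) B ∧ (∀ i j, CB a (ball x₀ (r₀ / 2)) C fun x => B x i j) ∧
    CB a (ball x₀ (r₀ / 2)) C F ∧ ∀ x ∈ ball x₀ (r₀ / 2),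
      Matrix.trace (B x * LM (dq e (1 / (m + 1 : ℝ)) v) x) = F x) →
  ∃ r > 0, Hk a (ball x₀ r) 2 fun x => fderiv ℝ v x e

/-! ## The linear equation -/

/-- DLM. Differentiation of the Levi matrix. USES: LMD, HCB.
PROOF. `∂_e v` is `C²`, for all `e`, so `v` is `C³`; by `LMD` and the symmetry of third derivatives. Product rule for
the trace. -/
def S_DLM : Prop := ∀ {n : ℕ} (a : ℝ) (W : Set (Cn n)), 0 < a → a ≤ 1 → IsOpen W →
  ∀ v : Cn n → ℝ, Hk a W 2 v → (∀ e, Hk a W 2 fun x => fderiv ℝ v x e) →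
  ∀ x ∈ W, ∀ e : Cn n, ∀ i j, DifferentiableAt ℝ (fun y => LM v y i j) x ∧
    fderiv ℝ (fun y => LM v y i j) x e = LM (fun y => fderiv ℝ v y e) x i j

/-- DQL. Derivatives of solutions of linear equations. USES: DQG, DQB, DQM, ELC, HCA, HCB, DLM.
PROOF. Fix `x₀ ∈ W`; on a small ball `ball x₀ r₀` (closed ball in `W`) `A` has eigenvalues in `[lam, 1/lam]`
(continuity, compactness), the entries of `A`, `F` have bounded Hölder first derivatives, `LM v` is bounded and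
Hölder. For `h = 1/(m+1)` small: `trace (A x * LM (dq e h v) x) = F^h x` with
`F^h x := dq e h F x - trace (dq e h A x * LM v (x + h e))` (`LM (dq e h v) x = dq e h (LM v) x`), bounded and
Hölder uniformly in `h` (`DQB`). So `DQG` with `B = A`. Second part: differentiate the equation (`DLM`). -/
def S_DQL : Prop := ∀ {n : ℕ} (a : ℝ) (W : Set (Cn n)) (A : Cn n → Matrix (Fin n) (Fin n) ℂ)
  (F : Cn n → ℂ) (v : Cn n → ℝ), 0 < a → a < 1 → IsOpen W → (∀ x ∈ W, (A x).PosDef) →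
  (∀ i j, Hk a W 1 fun x => A x i j) → Hk a W 1 F → Hk a W 2 v →
  (∀ x ∈ W, Matrix.trace (A x * LM v x) = F x) → ∀ e : Cn n,
  (Hk a W 2 fun x => fderiv ℝ v x e) ∧ ∀ x ∈ W,
    Matrix.trace (A x * LM (fun y => fderiv ℝ v y e) x) = fderiv ℝ F x e -
      ∑ i, ∑ j, fderiv ℝ (fun y => A y i j) x e * LM v x j i

/-- LRG. Regularity for linear equations. USES: DQL, HCA, HCB.
PROOF. Induction on `k` for all `F`, `v`. `k = 0` is the hypothesis. Step: `A`, `F ∈ Hk (k + 1)`; by induction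
`v ∈ Hk (k + 2)`, so `LM v ∈ Hk k` (`HCB`), and for every `e` the function `∂_e v ∈ Hk 2` (`DQL`, as `k + 1 ≥ 1`) satisfies
the linear equation with right side `∂_e F - ∑ (∂_e A i j) LM v j i ∈ Hk k` (`HCA`); by induction `∂_e v ∈ Hk (k + 2)`; so
`v ∈ Hk (k + 3)`. -/
def S_LRG : Prop := ∀ {n : ℕ} (a : ℝ) (W : Set (Cn n)) (A : Cn n → Matrix (Fin n) (Fin n) ℂ)
  (k : ℕ) (F : Cn n → ℂ) (v : Cn n → ℝ), 0 < a → a < 1 → IsOpen W → (∀ x ∈ W, (A x).PosDef) →
  (∀ i j, Hk a W k fun x => A x i j) → Hk a W k F → Hk a W 2 v →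
  (∀ x ∈ W, Matrix.trace (A x * LM v x) = F x) → Hk a W (k + 2) v

/-! ## The Monge–Ampère equation -/

/-- LGD. The averaged inverse.
PROOF. `Qs := Q + s (Q' - Q)`, `0 ≤ s ≤ 1`, is positive definite with eigenvalues in `[lam, 1/lam]` again;
`d/ds log (det Qs).re = (trace (Qs⁻¹ * (Q' - Q))).re` (Jacobi's formula; see helper29's LDET in RK or
`Matrix.derivative_det`; `det Qs` is a positive real and the trace of the product of two Hermitian matrices is real).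
`B i j := ∫_0^1 (Qs⁻¹) i j ds`: Hermitian, eigenvalues in `[lam, 1/lam]`, `‖Qs⁻¹ - Q₁s⁻¹‖ ≤ C ‖Qs - Q₁s‖` by
`X⁻¹ - Y⁻¹ = X⁻¹ (Y - X) Y⁻¹`. -/
def S_LGD : Prop := ∀ (n : ℕ) (lam : ℝ), 0 < lam → ∃ (C : ℝ)
  (B : Matrix (Fin n) (Fin n) ℂ → Matrix (Fin n) (Fin n) ℂ → Matrix (Fin n) (Fin n) ℂ),
  ∀ Q Q' : Matrix (Fin n) (Fin n) ℂ, MLe ((lam : ℂ) • 1) Q → MLe Q (((lam⁻¹ : ℝ) : ℂ) • 1) →
    MLe ((lam : ℂ) • 1) Q' → MLe Q' (((lam⁻¹ : ℝ) : ℂ) • 1) →
    (MLe ((lam : ℂ) • 1) (B Q Q') ∧ MLe (B Q Q') (((lam⁻¹ : ℝ) : ℂ) • 1)) ∧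
    (((Real.log Q'.det.re - Real.log Q.det.re : ℝ) : ℂ) = Matrix.trace (B Q Q' * (Q' - Q))) ∧
    (∀ i j, ‖B Q Q' i j‖ ≤ C) ∧
    ∀ Q₁ Q₁' : Matrix (Fin n) (Fin n) ℂ, MLe ((lam : ℂ) • 1) Q₁ → MLe Q₁ (((lam⁻¹ : ℝ) : ℂ) • 1) →
      MLe ((lam : ℂ) • 1) Q₁' → MLe Q₁' (((lam⁻¹ : ℝ) : ℂ) • 1) → ∀ i j,
      ‖B Q Q' i j - B Q₁ Q₁' i j‖ ≤ C * ∑ p, ∑ q, (‖Q p q - Q₁ p q‖ + ‖Q' p q - Q₁' p q‖)

/-- LGJ. The derivative of `log det`.
PROOF. Jacobi's formula (see `S_LGD`). -/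
def S_LGJ : Prop := ∀ {n : ℕ} (W : Set (Cn n)) (Q : Cn n → Matrix (Fin n) (Fin n) ℂ), IsOpen W →
  (∀ x ∈ W, (Q x).PosDef) → (∀ i j, ContDiffOn ℝ 1 (fun x => Q x i j) W) → ∀ x ∈ W, ∀ e : Cn n,
  ((fderiv ℝ (fun y => Real.log (Q y).det.re) x e : ℝ) : ℂ) =
    ∑ i, ∑ j, (Q x)⁻¹ i j * fderiv ℝ (fun y => Q y j i) x e

/-- DQN. Derivatives of solutions of the Monge–Ampère equation. USES: DQG, DQB, DQM, ELC, HCA, HCB, DLM, LGD, LGJ.
PROOF. Fix `x₀ ∈ W`, a small ball, `Q := X + LM u` (continuous, positive definite, Hölder). For small `h` apply `LGD` to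
`Q x`, `Q (x + h e)`: `trace (B^h x * (dq e h Q x)) = dq e h u x + dq e h g x`, `B^h x := B (Q x) (Q (x + h e))`, and
`dq e h Q = dq e h X + LM (dq e h u)`. So `trace (B^h LM (dq e h u)) = dq e h u + dq e h g - trace (B^h dq e h X)`, bounded
and Hölder uniformly in `h`; `B^h` is Hölder uniformly in `h` by the last item of `LGD`. `DQG` gives `∂_e u ∈ Hk 2` near `x₀`.
Second part: differentiate the equation (`LGJ`, `DLM`). -/
def S_DQN : Prop := ∀ {n : ℕ} (a : ℝ) (W : Set (Cn n)) (X : Cn n → Matrix (Fin n) (Fin n) ℂ)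
  (g u : Cn n → ℝ), 0 < a → a < 1 → IsOpen W → (∀ i j, ContDiffOn ℝ ∞ (fun x => X x i j) W) →
  (∀ x ∈ W, (X x).IsHermitian) → ContDiffOn ℝ ∞ g W → Hk a W 2 u →
  (∀ x ∈ W, (X x + LM u x).PosDef) →
  (∀ x ∈ W, Real.log (X x + LM u x).det.re = u x + g x) → ∀ e : Cn n,
  (Hk a W 2 fun x => fderiv ℝ u x e) ∧ ∀ x ∈ W,
    Matrix.trace ((X x + LM u x)⁻¹ * LM (fun y => fderiv ℝ u y e) x) =
      ((fderiv ℝ u x e + fderiv ℝ g x e : ℝ) : ℂ) -
        ∑ i, ∑ j, (X x + LM u x)⁻¹ i j * fderiv ℝ (fun y => X y j i) x e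

/-- RGA. The goal `S_REGN`. USES: DQN, LRG, HCA, HCB.
PROOF. `u ∈ Hk 2`. By `DQN` all `∂_e u ∈ Hk 2`, i.e. `u ∈ Hk 3`. Induction: `u ∈ Hk (k + 2)`, `k ≥ 1` implies
`A := (X + LM u)⁻¹ ∈ Hk k` (`HCB`), and the right side of the linear equation for `∂_e u` is in `Hk k` (`HCA`:
`∂_e u ∈ Hk (k + 1) ⊆ Hk k`); by `LRG` `∂_e u ∈ Hk (k + 2)`, so `u ∈ Hk (k + 3)`. So `u ∈ Hk k` for all `k` and `u` is smooth. -/
def S_RGA : Prop := S_REGN

end Pool.Agent.Helper14.AY
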