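import Pool.Agent.Helper14.AY.MainA
import Pool.Agent.Helper70.AY.LGD

/-!
# `S_SCHL` and `S_REGN`
-/

namespace Pool.Agent.Helper14.AY

open Pool.Agent.Helper57.HS

/-- A solution of class `C^(2,a)` of the Monge–Ampère equation is smooth. -/
theorem regn : S_REGN := regn_of_lgd Pool.Agent.Helper70.AY.lgd

end Pool.Agent.Helper14.AY
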