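import Pool.Agent.Helper14.AY.SCH2
import Pool.Agent.Helper14.AY.DQG
import Pool.Agent.Helper85.AY.CVB
import Pool.Agent.Helper90.AY.CVD
import Pool.Agent.Helper34.AY.CVR
import Pool.Agent.Helper59.AY.KER
import Pool.Agent.Helper88.AY.KEU
import Pool.Agent.Helper91.AY.CVH
import Pool.Agent.Helper88.AY.GSL
import Pool.Agent.Helper91.AY.GSI
import Pool.Agent.Helper94.AY.GS1
import Pool.Agent.Helper90.AY.LMD
import Pool.Agent.Helper84.AY.SQA
import Pool.Agent.Helper85.AY.GSA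
import Pool.Agent.Helper70.AY.HCA
import Pool.Agent.Helper58.AY.HCB
import Pool.Agent.Helper34.AY.LIMD
import Pool.Agent.Helper7.AY.DQB
import Pool.Agent.Helper36.AY.DQM
import Pool.Agent.Helper58.AY.ELC
import Pool.Agent.Helper16.AY.CUT
import Pool.Agent.Helper35.AY.DLM
import Pool.Agent.Helper2.AY.DQL
import Pool.Agent.Helper34.AY.LRG
import Pool.Agent.Helper90.AY.LGJ
import Pool.Agent.Helper97.AY.DQN
import Pool.Agent.Helper25.AY.RGA

/-!
# The Schauder estimate `S_SCHL` and (from `S_LGD`) the regularity `S_REGN`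
-/

namespace Pool.Agent.Helper14.AY

open Pool.Agent.Helper57.HS

theorem gsl_main : S_GSL :=
  Pool.Agent.Helper88.AY.gsl Pool.Agent.Helper85.AY.cvb Pool.Agent.Helper90.AY.cvd
    Pool.Agent.Helper34.AY.cvr

theorem gs1_main : S_GS1 :=
  Pool.Agent.Helper94.AY.gs1 Pool.Agent.Helper59.AY.ker Pool.Agent.Helper91.AY.cvh gsl_main
    Pool.Agent.Helper91.AY.gsi

theorem sch2_main : S_SCH2 :=
  sch2 (Pool.Agent.Helper85.AY.gsa gs1_main
    (Pool.Agent.Helper84.AY.sqa Pool.Agent.Helper90.AY.lmd)) Pool.Agent.Helper90.AY.lmd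

/-- The Schauder estimate for functions with small support. -/
theorem schl : S_SCHL := schl_of_sch2 sch2_main

theorem hcb_main : S_HCB :=
  Pool.Agent.Helper58.AY.hcb Pool.Agent.Helper70.AY.hca Pool.Agent.Helper90.AY.lmd

theorem dqg_main : S_DQG :=
  dqg sch2_main Pool.Agent.Helper34.AY.limd Pool.Agent.Helper7.AY.dqb
    (Pool.Agent.Helper36.AY.dqm Pool.Agent.Helper90.AY.lmd)
    (Pool.Agent.Helper16.AY.cut Pool.Agent.Helper90.AY.lmd) hcb_main Pool.Agent.Helper90.AY.lmd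

theorem dlm_main : S_DLM :=
  Pool.Agent.Helper35.AY.dlm Pool.Agent.Helper90.AY.lmd hcb_main

theorem lrg_main : S_LRG :=
  Pool.Agent.Helper34.AY.lrg
    (Pool.Agent.Helper2.AY.dql dqg_main Pool.Agent.Helper7.AY.dqb
      (Pool.Agent.Helper36.AY.dqm Pool.Agent.Helper90.AY.lmd) Pool.Agent.Helper58.AY.elc
      Pool.Agent.Helper70.AY.hca hcb_main dlm_main)
    Pool.Agent.Helper70.AY.hca hcb_main

/-- Regularity, from the averaged inverse `S_LGD`. -/
theorem regn_of_lgd (hLGD : S_LGD) : S_REGN :=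
  Pool.Agent.Helper25.AY.rga
    (Pool.Agent.Helper97.AY.dqn dqg_main Pool.Agent.Helper7.AY.dqb
      (Pool.Agent.Helper36.AY.dqm Pool.Agent.Helper90.AY.lmd) Pool.Agent.Helper58.AY.elc
      Pool.Agent.Helper70.AY.hca hcb_main dlm_main hLGD Pool.Agent.Helper90.AY.lgj)
    lrg_main Pool.Agent.Helper70.AY.hca hcb_main

end Pool.Agent.Helper14.AY
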