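import Pool.Agent.Helper14.AY.GoalsA

/-!
# SCH2: freezing the coefficients
-/

open Complex Metric Set Filter Topology MeasureTheory
open scoped ContDiff ComplexConjugate ComplexOrder Manifold Matrix

namespace Pool.Agent.Helper14.AY

open Pool.Agent.Helper95.Lin Pool.Agent.Helper16.Abund Pool.Agent.Helper92.Orb Pool.Agent.Helper10.SP
  Pool.Agent.Helper95.RK Pool.Agent.Helper57.HS

theorem tr_bd {n : ℕ} (B C : Matrix (Fin n) (Fin n) ℂ) (β γ : ℝ) (hβ : 0 ≤ β)
    (hB : ∀ i j, ‖B i j‖ ≤ β) (hC : ∀ i j, ‖C i j‖ ≤ γ) :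
    ‖Matrix.trace (B * C)‖ ≤ (n : ℝ) ^ 2 * (β * γ) := by
  unfold Matrix.trace
  calc ‖∑ i, (B * C).diag i‖ ≤ ∑ i : Fin n, ‖(B * C).diag i‖ := norm_sum_le _ _
    _ ≤ ∑ _i : Fin n, (n : ℝ) * (β * γ) := by
        refine Finset.sum_le_sum (fun i _ => ?_)
        rw [Matrix.diag_apply, Matrix.mul_apply]
        calc ‖∑ j, B i j * C j i‖ ≤ ∑ j, ‖B i j * C j i‖ := norm_sum_le _ _
          _ ≤ ∑ _j : Fin n, β * γ := by
              refine Finset.sum_le_sum (fun j _ => ?_)
              rw [norm_mul]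
              exact mul_le_mul (hB i j) (hC j i) (norm_nonneg _) hβ
          _ = (n : ℝ) * (β * γ) := by simp
    _ = (n : ℝ) ^ 2 * (β * γ) := by simp; ring

theorem nz {E : Type*} [NormedAddCommGroup E] (T : E) : ‖T - T‖ = 0 := by
  rw [sub_self, norm_zero]

theorem norm_single_one {n : ℕ} (i : Fin n) (z : ℂ) (hz : ‖z‖ = 1) :
    ‖(Pi.single i z : Cn n)‖ = 1 := by
  rw [Pi.norm_single, hz]

theorem bil_le {n : ℕ} (T : Cn n →L[ℝ] Cn n →L[ℝ] ℝ) (u v : Cn n) (hu : ‖u‖ = 1) (hv : ‖v‖ = 1) :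
    |T u v| ≤ ‖T‖ := by
  have h1 := (T u).le_opNorm v
  have h2 := T.le_opNorm u
  rw [hv, mul_one] at h1
  rw [hu, mul_one] at h2
  rw [← Real.norm_eq_abs]
  exact h1.trans h2

theorem cplx_le (p q c : ℝ) (hp : |p| ≤ 2 * c) (hq : |q| ≤ 2 * c) :
    ‖(p : ℂ) + I * (q : ℂ)‖ ≤ 4 * c := by
  calc ‖(p : ℂ) + I * (q : ℂ)‖ ≤ ‖(p : ℂ)‖ + ‖I * (q : ℂ)‖ := norm_add_le _ _
    _ = |p| + |q| := by
        rw [norm_mul, Complex.norm_I, one_mul, Complex.norm_real, Complex.norm_real,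
          Real.norm_eq_abs, Real.norm_eq_abs]
    _ ≤ 4 * c := by linarith

theorem lm_sub (hLMD : S_LMD) {n : ℕ} {w : Cn n → ℝ} (hw : ContDiff ℝ 2 w) (x y : Cn n)
    (i j : Fin n) : ‖LM w x i j - LM w y i j‖ ≤ 4 * ‖D2 w x - D2 w y‖ := by
  rw [(hLMD w x hw.contDiffAt).2.1 i j, (hLMD w y hw.contDiffAt).2.1 i j]
  set T := D2 w x - D2 w y with hT
  have h1 := bil_le T (Pi.single i 1) (Pi.single j 1) (norm_single_one i 1 (by simp))
    (norm_single_one j 1 (by simp))
  have h2 := bil_le T (Pi.single i I) (Pi.single j I) (norm_single_one i I (by simp))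
    (norm_single_one j I (by simp))
  have h3 := bil_le T (Pi.single i 1) (Pi.single j I) (norm_single_one i 1 (by simp))
    (norm_single_one j I (by simp))
  have h4 := bil_le T (Pi.single i I) (Pi.single j 1) (norm_single_one i I (by simp))
    (norm_single_one j 1 (by simp))
  have e : ((D2 w x (Pi.single i 1) (Pi.single j 1) + D2 w x (Pi.single i I) (Pi.single j I) : ℝ)
      : ℂ) + I * ((D2 w x (Pi.single i 1) (Pi.single j I) -
        D2 w x (Pi.single i I) (Pi.single j 1) : ℝ) : ℂ) -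
      (((D2 w y (Pi.single i 1) (Pi.single j 1) + D2 w y (Pi.single i I) (Pi.single j I) : ℝ)
      : ℂ) + I * ((D2 w y (Pi.single i 1) (Pi.single j I) -
        D2 w y (Pi.single i I) (Pi.single j 1) : ℝ) : ℂ)) =
      ((T (Pi.single i 1) (Pi.single j 1) + T (Pi.single i I) (Pi.single j I) : ℝ) : ℂ) +
      I * ((T (Pi.single i 1) (Pi.single j I) - T (Pi.single i I) (Pi.single j 1) : ℝ) : ℂ) := by
    simp only [hT, sub_apply]
    push_cast
    ring
  rw [e]
  refine cplx_le _ _ _ ?_ ?_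
  · exact (abs_add_le _ _).trans (by linarith)
  · exact (abs_sub _ _).trans (by linarith)

theorem d2_zero {n : ℕ} {w : Cn n → ℝ} {x : Cn n} (hx : x ∉ tsupport w) : D2 w x = 0 := by
  have h1 : w =ᶠ[𝓝 x] fun _ => 0 := notMem_tsupport_iff_eventuallyEq.1 hx
  have h2 : fderiv ℝ w =ᶠ[𝓝 x] fun _ => 0 := by
    filter_upwards [h1.fderiv (𝕜 := ℝ)] with y hy
    rw [hy]
    simp
  unfold D2
  rw [h2.fderiv_eq]
  simp

theorem lm_zero (hLMD : S_LMD) {n : ℕ} {w : Cn n → ℝ} (hw : ContDiff ℝ 2 w) {x : Cn n}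
    (hx : x ∉ tsupport w) (i j : Fin n) : LM w x i j = 0 := by
  rw [(hLMD w x hw.contDiffAt).2.1 i j, d2_zero hx]
  simp

theorem hb_nonneg {n : ℕ} (hn : 0 < n) {E : Type*} [NormedAddCommGroup E] {a N : ℝ}
    {f : Cn n → E} (h : HB a univ N f) : 0 ≤ N := by
  have h1 := h (Pi.single ⟨0, hn⟩ 1) (mem_univ _) 0 (mem_univ _)
  rw [sub_zero, norm_single_one _ _ (by simp), Real.one_rpow, mul_one] at h1
  exact (norm_nonneg _).trans h1

theorem hb_out {n : ℕ} {a N : ℝ} {w : Cn n → ℝ} (h : HB a univ N (D2 w)) (x z : Cn n)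
    (hz : D2 w z = 0) : ‖D2 w x‖ ≤ N * ‖x - z‖ ^ a := by
  have h1 := h x (mem_univ _) z (mem_univ _)
  have h2 : D2 w x - D2 w z = D2 w x := by rw [hz]; exact sub_zero (D2 w x)
  rwa [h2] at h1

theorem lm_out (hLMD : S_LMD) {n : ℕ} {w : Cn n → ℝ} (hw : ContDiff ℝ 2 w) (x : Cn n)
    (i j : Fin n) : ‖LM w x i j‖ ≤ 4 * ‖D2 w x‖ := by
  rw [(hLMD w x hw.contDiffAt).2.1 i j]
  have h1 := bil_le (D2 w x) (Pi.single i 1) (Pi.single j 1) (norm_single_one i 1 (by simp))
    (norm_single_one j 1 (by simp))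
  have h2 := bil_le (D2 w x) (Pi.single i I) (Pi.single j I) (norm_single_one i I (by simp))
    (norm_single_one j I (by simp))
  have h3 := bil_le (D2 w x) (Pi.single i 1) (Pi.single j I) (norm_single_one i 1 (by simp))
    (norm_single_one j I (by simp))
  have h4 := bil_le (D2 w x) (Pi.single i I) (Pi.single j 1) (norm_single_one i I (by simp))
    (norm_single_one j 1 (by simp))
  refine cplx_le _ _ _ ?_ ?_
  · exact (abs_add_le _ _).trans (by linarith)
  · exact (abs_sub _ _).trans (by linarith)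

/-- One step of the iteration. -/
theorem frz_step (hLMD : S_LMD) {n : ℕ} (hn : 0 < n) {a A₀ ρ N : ℝ} (ha : 0 < a) (ha1 : a < 1)
    (hA₀ : 0 ≤ A₀) (hρ : 0 < ρ) {x₀ : Cn n} {A : Cn n → Matrix (Fin n) (Fin n) ℂ}
    (hA : ∀ i j, HB a (ball x₀ ρ) A₀ fun x => A x i j) {w : Cn n → ℝ} (hw : ContDiff ℝ 2 w)
    (hs : tsupport w ⊆ ball x₀ ρ) (hN : HB a univ N (D2 w)) :
    HB a univ (12 * (n : ℝ) ^ 2 * A₀ * ρ ^ a * N)
      (fun x => Matrix.trace ((A x₀ - A x) * LM w x)) := by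
  have hN0 : 0 ≤ N := hb_nonneg hn hN
  have hρa : 0 ≤ ρ ^ a := Real.rpow_nonneg hρ.le a
  have hx₀ : x₀ ∈ ball x₀ ρ := mem_ball_self hρ
  have hout : ∀ x, x ∉ ball x₀ ρ → D2 w x = 0 := fun x hx => d2_zero (fun h => hx (hs h))
  have hout' : ∀ x, x ∉ ball x₀ ρ → ∀ i j, LM w x i j = 0 :=
    fun x hx => lm_zero hLMD hw (fun h => hx (hs h))
  -- bound of the coefficients
  have hAb : ∀ x ∈ ball x₀ ρ, ∀ i j, ‖(A x₀ - A x) i j‖ ≤ A₀ * ρ ^ a := by
    intro x hx i j
    have h1 := hA i j x₀ hx₀ x hx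
    rw [Matrix.sub_apply]
    refine h1.trans (mul_le_mul_of_nonneg_left ?_ hA₀)
    refine Real.rpow_le_rpow (norm_nonneg _) ?_ ha.le
    rw [← dist_eq_norm, dist_comm]
    exact (mem_ball.1 hx).le
  -- bound of the second derivative
  have hD : ∀ x, ‖D2 w x‖ ≤ 2 * N * ρ ^ a := by
    intro x
    by_cases hx : x ∈ ball x₀ ρ
    · have hz : x₀ + (Pi.single ⟨0, hn⟩ (ρ : ℂ) : Cn n) ∉ ball x₀ ρ := by
        rw [mem_ball, dist_eq_norm, add_sub_cancel_left, Pi.norm_single, Complex.norm_real,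
          Real.norm_of_nonneg hρ.le]
        exact lt_irrefl _
      have h1 := hb_out hN x _ (hout _ hz)
      have h2 : ‖x - (x₀ + (Pi.single ⟨0, hn⟩ (ρ : ℂ) : Cn n))‖ ≤ 2 * ρ := by
        calc ‖x - (x₀ + (Pi.single ⟨0, hn⟩ (ρ : ℂ) : Cn n))‖
            = ‖(x - x₀) - (Pi.single ⟨0, hn⟩ (ρ : ℂ) : Cn n)‖ := by congr 1; abel
          _ ≤ ‖x - x₀‖ + ‖(Pi.single ⟨0, hn⟩ (ρ : ℂ) : Cn n)‖ := norm_sub_le _ _
          _ ≤ ρ + ρ := by
              refine add_le_add ?_ ?_
              · rw [← dist_eq_norm]; exact (mem_ball.1 hx).le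
              · rw [Pi.norm_single, Complex.norm_real, Real.norm_of_nonneg hρ.le]
          _ = 2 * ρ := by ring
      have h3 : (2 * ρ) ^ a ≤ 2 * ρ ^ a := by
        rw [Real.mul_rpow (by norm_num) hρ.le]
        refine mul_le_mul_of_nonneg_right ?_ hρa
        calc (2 : ℝ) ^ a ≤ 2 ^ (1 : ℝ) := Real.rpow_le_rpow_of_exponent_le (by norm_num) ha1.le
          _ = 2 := Real.rpow_one 2
      calc ‖D2 w x‖ ≤ N * ‖x - (x₀ + (Pi.single ⟨0, hn⟩ (ρ : ℂ) : Cn n))‖ ^ a := h1
        _ ≤ N * (2 * ρ ^ a) := by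
            refine mul_le_mul_of_nonneg_left (le_trans ?_ h3) hN0
            exact Real.rpow_le_rpow (norm_nonneg _) h2 ha.le
        _ = 2 * N * ρ ^ a := by ring
    · have h0 : ‖D2 w x‖ = 0 := by rw [hout x hx]; exact norm_zero (E := Cn n →L[ℝ] Cn n →L[ℝ] ℝ)
      rw [h0]
      positivity
  -- the case where one point is outside
  have hcross : ∀ x ∈ ball x₀ ρ, ∀ y ∉ ball x₀ ρ,
      ‖Matrix.trace ((A x₀ - A x) * LM w x)‖ ≤
        12 * (n : ℝ) ^ 2 * A₀ * ρ ^ a * N * ‖x - y‖ ^ a := by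
    intro x hx y hy
    obtain ⟨t, ht, htz⟩ : ∃ t ∈ Icc (0 : ℝ) 1, ‖x + t • (y - x) - x₀‖ = ρ := by
      have hc : ContinuousOn (fun t : ℝ => ‖x + t • (y - x) - x₀‖) (Icc 0 1) := by fun_prop
      have h0 : (fun t : ℝ => ‖x + t • (y - x) - x₀‖) 0 ≤ ρ := by
        simp only [zero_smul, add_zero]
        rw [← dist_eq_norm]
        exact (mem_ball.1 hx).le
      have h1 : ρ ≤ (fun t : ℝ => ‖x + t • (y - x) - x₀‖) 1 := by
        simp only [one_smul, add_sub_cancel]
        rw [← dist_eq_norm]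
        exact not_lt.1 hy
      exact intermediate_value_Icc (by norm_num) hc ⟨h0, h1⟩
    set z := x + t • (y - x) with hz
    have hzo : z ∉ ball x₀ ρ := by
      rw [mem_ball, dist_eq_norm, htz]
      exact lt_irrefl _
    have hxz : ‖x - z‖ ≤ ‖x - y‖ := by
      have : x - z = t • (x - y) := by
        rw [hz]
        module
      rw [this, norm_smul, Real.norm_of_nonneg ht.1]
      exact mul_le_of_le_one_left (norm_nonneg _) ht.2
    have h1 : LM w x = LM w x - LM w z := by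
      ext i j
      rw [Matrix.sub_apply, hout' z hzo i j, sub_zero]
    rw [h1]
    have h2 := tr_bd (A x₀ - A x) (LM w x - LM w z) (A₀ * ρ ^ a) (4 * (N * ‖x - y‖ ^ a))
      (by positivity) (hAb x hx) (by
        intro i j
        rw [Matrix.sub_apply]
        refine (lm_sub hLMD hw x z i j).trans (mul_le_mul_of_nonneg_left ?_ (by norm_num))
        refine (hN x (mem_univ _) z (mem_univ _)).trans (mul_le_mul_of_nonneg_left ?_ hN0)
        exact Real.rpow_le_rpow (norm_nonneg _) hxz ha.le)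
    refine h2.trans ?_
    have h3 : 0 ≤ (n : ℝ) ^ 2 * A₀ * ρ ^ a * N * ‖x - y‖ ^ a := by positivity
    nlinarith [h3]
  intro x _ y _
  by_cases hx : x ∈ ball x₀ ρ
  · by_cases hy : y ∈ ball x₀ ρ
    · have e : Matrix.trace ((A x₀ - A x) * LM w x) - Matrix.trace ((A x₀ - A y) * LM w y) =
          Matrix.trace ((A x₀ - A x) * (LM w x - LM w y)) +
            Matrix.trace ((A y - A x) * LM w y) := by
        rw [← Matrix.trace_add, ← Matrix.trace_sub]
        congr 1
        simp only [Matrix.sub_mul, Matrix.mul_sub]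
        abel
      show ‖Matrix.trace ((A x₀ - A x) * LM w x) - Matrix.trace ((A x₀ - A y) * LM w y)‖ ≤ _
      rw [e]
      have h1 := tr_bd (A x₀ - A x) (LM w x - LM w y) (A₀ * ρ ^ a) (4 * (N * ‖x - y‖ ^ a))
        (by positivity) (hAb x hx) (by
          intro i j
          rw [Matrix.sub_apply]
          exact (lm_sub hLMD hw x y i j).trans (mul_le_mul_of_nonneg_left
            (hN x (mem_univ _) y (mem_univ _)) (by norm_num)))
      have h2 := tr_bd (A y - A x) (LM w y) (A₀ * ‖x - y‖ ^ a) (4 * (2 * N * ρ ^ a))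
        (by positivity) (by
          intro i j
          have := hA i j y hy x hx
          rw [Matrix.sub_apply, norm_sub_rev x y]
          exact this) (by
          intro i j
          exact (lm_out hLMD hw y i j).trans (mul_le_mul_of_nonneg_left (hD y) (by norm_num)))
      refine (norm_add_le _ _).trans ((add_le_add h1 h2).trans (le_of_eq ?_))
      ring
    · have e : Matrix.trace ((A x₀ - A y) * LM w y) = 0 := by
        have : LM w y = 0 := by
          ext i j
          exact hout' y hy i j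
        rw [this]
        simp
      show ‖Matrix.trace ((A x₀ - A x) * LM w x) - Matrix.trace ((A x₀ - A y) * LM w y)‖ ≤ _
      rw [e, sub_zero]
      exact hcross x hx y hy
  · have e : Matrix.trace ((A x₀ - A x) * LM w x) = 0 := by
      have : LM w x = 0 := by
        ext i j
        exact hout' x hx i j
      rw [this]
      simp
    show ‖Matrix.trace ((A x₀ - A x) * LM w x) - Matrix.trace ((A x₀ - A y) * LM w y)‖ ≤ _
    rw [e, zero_sub, norm_neg]
    by_cases hy : y ∈ ball x₀ ρ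
    · rw [norm_sub_rev x y]
      exact hcross y hy x hx
    · have e' : Matrix.trace ((A x₀ - A y) * LM w y) = 0 := by
        have : LM w y = 0 := by
          ext i j
          exact hout' y hy i j
        rw [this]
        simp
      rw [e', norm_zero]
      positivity

theorem sch2 (hGSA : S_GSA) (hLMD : S_LMD) : S_SCH2 := by
  intro n a lam A₀ ha ha1 hlam hA₀
  rcases Nat.eq_zero_or_pos n with rfl | hn
  · refine ⟨1, one_pos, 1, one_pos, ?_⟩
    intro ρ x₀ A _ _ _ _ w _ _ _ M _ x _ y _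
    obtain rfl : x = y := Subsingleton.elim _ _
    rw [sub_self x, norm_zero, Real.zero_rpow ha.ne', mul_zero]
    exact (nz (D2 w x)).le
  obtain ⟨K₁, hK₁, H⟩ := hGSA n a lam ha ha1 hlam
  set c : ℝ := 24 * K₁ * (n : ℝ) ^ 2 * A₀ + 1 with hc
  have hc0 : 0 < c := by positivity
  refine ⟨(1 / c) ^ (1 / a), by positivity, 2 * K₁, by positivity, ?_⟩
  intro ρ x₀ A hρ hρδ hEll hA w hw hs hK' M hM
  have hρa : ρ ^ a ≤ 1 / c := by
    calc ρ ^ a ≤ ((1 / c) ^ (1 / a)) ^ a := Real.rpow_le_rpow hρ.le hρδ ha.le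
      _ = 1 / c := by
          rw [← Real.rpow_mul (by positivity), one_div_mul_cancel ha.ne', Real.rpow_one]
  have hcomp : HasCompactSupport w := by
    refine IsCompact.of_isClosed_subset (isCompact_closedBall x₀ ρ) (isClosed_tsupport w)
      (hs.trans ball_subset_closedBall)
  have hx₀ : x₀ ∈ ball x₀ ρ := mem_ball_self hρ
  have step : ∀ N, HB a univ N (D2 w) → HB a univ (K₁ * M + N / 2) (D2 w) := by
    intro N hN
    have hN0 : 0 ≤ N := hb_nonneg hn hN
    have h1 := frz_step hLMD hn ha ha1 hA₀ hρ hA hw hs hN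
    have h2 : HB a univ (M + 12 * (n : ℝ) ^ 2 * A₀ * ρ ^ a * N)
        (fun x => Matrix.trace (A x₀ * LM w x)) := by
      intro x hx y hy
      have e : ∀ x, Matrix.trace (A x₀ * LM w x) =
          Matrix.trace (A x * LM w x) + Matrix.trace ((A x₀ - A x) * LM w x) := by
        intro x
        rw [← Matrix.trace_add, ← Matrix.add_mul]
        congr 2
        abel
      show ‖Matrix.trace (A x₀ * LM w x) - Matrix.trace (A x₀ * LM w y)‖ ≤ _
      rw [e x, e y]
      have h3 := hM x hx y hy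
      have h4 := h1 x hx y hy
      calc _ = ‖(Matrix.trace (A x * LM w x) - Matrix.trace (A y * LM w y)) +
            (Matrix.trace ((A x₀ - A x) * LM w x) - Matrix.trace ((A x₀ - A y) * LM w y))‖ := by
              congr 1; ring
        _ ≤ _ := norm_add_le _ _
        _ ≤ M * ‖x - y‖ ^ a + 12 * (n : ℝ) ^ 2 * A₀ * ρ ^ a * N * ‖x - y‖ ^ a :=
            add_le_add h3 h4
        _ = _ := by ring
    have h5 := H (A x₀) (hEll x₀ hx₀).1 (hEll x₀ hx₀).2 w hw hcomp _ h2
    intro x hx y hy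
    refine (h5 x hx y hy).trans (mul_le_mul_of_nonneg_right ?_ (Real.rpow_nonneg (norm_nonneg _) _))
    have h6 : K₁ * (12 * (n : ℝ) ^ 2 * A₀ * ρ ^ a * N) ≤ N / 2 := by
      have h7 : 24 * K₁ * (n : ℝ) ^ 2 * A₀ * ρ ^ a ≤ 1 := by
        calc 24 * K₁ * (n : ℝ) ^ 2 * A₀ * ρ ^ a ≤ 24 * K₁ * (n : ℝ) ^ 2 * A₀ * (1 / c) :=
              mul_le_mul_of_nonneg_left hρa (by positivity)
          _ = (c - 1) / c := by rw [hc]; ring
          _ ≤ 1 := by
              rw [div_le_one hc0]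
              linarith
      nlinarith [mul_le_mul_of_nonneg_right h7 hN0]
    linarith
  obtain ⟨K', hK'⟩ := hK'
  have iter : ∀ j : ℕ, HB a univ (2 * K₁ * M + (K' - 2 * K₁ * M) / 2 ^ j) (D2 w) := by
    intro j
    induction j with
    | zero =>
      have : 2 * K₁ * M + (K' - 2 * K₁ * M) / 2 ^ 0 = K' := by rw [pow_zero, div_one]; ring
      rw [this]
      exact hK'
    | succ j ih =>
      have h1 := step _ ih
      have : K₁ * M + (2 * K₁ * M + (K' - 2 * K₁ * M) / 2 ^ j) / 2 =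
          2 * K₁ * M + (K' - 2 * K₁ * M) / 2 ^ (j + 1) := by
        rw [pow_succ]
        field_simp
        ring
      rw [this] at h1
      exact h1
  intro x hx y hy
  have hlim : Tendsto (fun j : ℕ => (2 * K₁ * M + (K' - 2 * K₁ * M) / 2 ^ j) * ‖x - y‖ ^ a) atTop
      (𝓝 ((2 * K₁ * M + 0) * ‖x - y‖ ^ a)) := by
    refine Tendsto.mul_const _ (Tendsto.const_add _ ?_)
    have h1 : Tendsto (fun j : ℕ => (K' - 2 * K₁ * M) * (1 / 2 : ℝ) ^ j) atTop
        (𝓝 ((K' - 2 * K₁ * M) * 0)) :=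
      (tendsto_pow_atTop_nhds_zero_of_lt_one (by norm_num) (by norm_num)).const_mul _
    rw [mul_zero] at h1
    refine h1.congr (fun j => ?_)
    rw [one_div, inv_pow, div_eq_mul_inv]
  rw [add_zero] at hlim
  exact ge_of_tendsto' hlim (fun j => iter j x hx y hy)

end Pool.Agent.Helper14.AY
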